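import Pool.Agent.X295.Lin

/-!
# MP_130685_nt: Zilber-Pink in `Y(1)^n` for almost all members, over a number field, of families with
any number of parameters

The Shimura variety `Y(1)^n` is identified with `ℂ^n` by the elliptic modular function
`jj = j = E₄³ / Δ`. Let `K ⊂ ℂ` be any countable field (for example finitely generated, of any
transcendence degree).

**Families.** We consider algebraic families `X_t` of subsets of `Y(1)^n` with `q` parameters
`t = (t_1, …, t_q)`, given by
* a family `B_t ⊆ P^N` of projective algebraic sets, defined by forms `G k` with coefficients in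
  `K[t_1, …, t_q]`,
* quotients `f_i = A_i / B_i` of forms of the same degree `d_i` with coefficients in `K[t]`,
* functions `s_i` integral over `K[j]`, `R_i (s_i, j) = 0` with `R_i` monic in the first variable
  (level one: `R_i = S - J`, `s_i = j`; in general modular functions of any level without poles
  in the upper half plane), and polynomials `c_i ∈ K[t]`:
`X_t = {x | ∃ y ∈ B_t, ∃ s, ∀ i, R_i (s_i, x_i) = 0, c_i (t) s_i = A_i (y) / B_i (y)}`
(`scaledImage`), the image of a family of subvarieties of a product of modular curves of any levels.

**Degenerate divisors.** Let `h_1, …, h_M` be polynomials in `t`, irreducible over `ℂ`, whose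
coefficients are algebraic numbers in `K`. The family degenerates along the hypersurfaces `h_l = 0` of
the space of parameters in the following sense (`DegeneratesAlongK`):
* `c_i` vanishes along `h_l = 0` exactly to the order `e_{l i} > 0`, and
* at one point `t` of the hypersurface `h_l = 0` (with coordinates algebraic over `K`) no point of
  `B_t` lies on `m + 1` of the divisors of the `f_i`.

**Theorem.** Suppose that one of the following two conditions holds, where `T` bounds the degrees of
the `R_i` (`T = 1` for level one):
1. `M ≥ m + 2`, and the orders are independent: no product of some of the numbers `e_{l i}` (for a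
   nonempty set of pairs `(l, i)`) with a positive number `a ≤ T^(2 M n)` is a square. For example, for
   `T = 1` the `e_{l i}` can be any distinct prime numbers.
2. `M ≥ C(min(m + 2, n), 2) + 1`, and `a e_{l i} e_{l j} e_{l' i} e_{l' j}` is not a square for
   `l ≠ l'`, `i ≠ j`, `1 ≤ a ≤ T^8`.
Let `ω_0 ≠ 0, ω_1, …, ω_r` be algebraic numbers in `K`, for example an integral basis of a number field
`F ⊆ K`, `[F : ℚ] = r + 1`. Then, for each `ε > 0`, for all but `O(H^(q (r + 1) - 1 + ε))` of the
integral `u = (u_{j b})` with `|u_{j b}| ≤ H` the member `X_t` with the parameters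
`t_j = ∑_b ω_b u_{j b}` has no atypical intersection with special subvarieties `Z` of `Y(1)^n`: every
irreducible closed subset of `X_t ∩ Z` has dimension at most `dim Z + m - n`, and the same bound
holds for the transcendence degrees of the points of `X_t ∩ Z` over `K`. The constant coordinates
of `Z` can be special points or integral over the ring generated by any given finite subset `Γ` of
`K`.

So for one hundred percent of the `t ∈ O_F^q`, with a power saving, `X_t` has no atypical
intersections; the points of `P^(q - 1)(F)` are included, being given by vectors in `O_F^q`.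

**New.** In the starting files there is one parameter, and at least `n (n - 1) / 2 + 1` degenerate
members. The file `MP_d83ecd_ag/MultiParameterFamilies` (ours) is about integral parameters
`u ∈ ℤ^q`, divisors `h_l = 0` defined over `ℤ` and families defined over the algebraic numbers. A divisor
over a number field cannot be treated by restriction of scalars in that theorem, because its norm is
not irreducible over `ℂ`, and the family need not degenerate along the conjugate divisors, and for
transcendental `K` the values of `h_l` at the parameters have to be small at places of `K` for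
which the transcendental coefficients of the family are integral and remain independent. The new
steps are: places above a prime factor of the norm of `h_l`, at which `h_l (t)` itself is not a unit,
found with the automorphisms of `ℂ` (`X295/PlaceK`); an elimination over `K` by which the exceptional
primes divide an integral polynomial without one of the variables (`X295/ElimK`); the linear
substitution `t_j = ∑_b ω_b u_{j b}`, under which irreducible polynomials remain irreducible.
-/

set_option autoImplicit false

namespace Pool.Agent.Results.MP_130685_nt.NumberFieldFamilies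

open MvPolynomial Pool.Agent.X295 Pool.Agent.Y152.RP.Fam

/-- Zilber-Pink for families with `q` parameters over any countable field, which degenerate along
`m + 2` hypersurfaces over a number field (or `C(min(m + 2, n), 2) + 1` hypersurfaces, under a
weaker condition for the orders), for all but `O(H^(q (r + 1) - 1 + ε))` of the parameters in a box
of size `H` of a lattice of rank `q (r + 1)` in a number field. -/
theorem result (K : Subfield ℂ) [Countable K] (κ : Type) [Finite κ]
    (q N n m M T r : ℕ) (ω : Fin (r + 1) → K) (hω0 : ω 0 ≠ 0) (hω : ∀ b, IsAlgebraic ℚ (ω b : ℂ))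
    (G : κ → MvPolynomial (Fin (N + 1)) (MvPolynomial (Fin q) K))
    (hG : ∀ k, ∃ e, (G k).IsHomogeneous e)
    (A B : Fin n → MvPolynomial (Fin (N + 1)) (MvPolynomial (Fin q) K)) (d : Fin n → ℕ)
    (hA : ∀ i, (A i).IsHomogeneous (d i)) (hB : ∀ i, (B i).IsHomogeneous (d i))
    (R : Fin n → Polynomial (Polynomial K)) (hR : ∀ i, (R i).Monic)
    (hT : ∀ i u w, ((R i).coeff u).coeff w ≠ 0 → u ≤ T ∧ w ≤ T)
    (c : Fin n → MvPolynomial (Fin q) K) (h : Fin M → MvPolynomial (Fin q) K)
    (e : Fin M → Fin n → ℕ) (he : ∀ l i, 0 < e l i)
    (hdeg : ∀ l, DegeneratesAlongK m G A B c (h l) (e l))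
    (Γ : Finset ℂ) (hΓ : ∀ γ ∈ Γ, γ ∈ K)
    (hM : (m + 2 ≤ M ∧ ∀ P : Finset (Fin M × Fin n), P.Nonempty → ∀ a, 0 < a →
        a ≤ T ^ (2 * (M * n)) → ¬ IsSquare (a * ∏ p ∈ P, e p.1 p.2)) ∨
      ((min (m + 2) n).choose 2 + 1 ≤ M ∧ ∀ l l', l ≠ l' → ∀ i j, i ≠ j → ∀ a, 0 < a →
        a ≤ T ^ 8 → ¬ IsSquare (a * (e l i * e l j * (e l' i * e l' j)))))
    (ε : ℝ) (hε : 0 < ε) :
    ∃ C : ℝ, ∀ H : ℕ, 1 ≤ H →
      ({u : Fin q → Fin (r + 1) → ℤ | (∀ j b, |u j b| ≤ H) ∧
        ¬ NoAtypical (algebraMap (Algebra.adjoin ℤ (Γ : Set ℂ)) ℂ) K m
          (scaledImage (fun j => ∑ b, (ω b : ℂ) * (u j b : ℂ)) G A B R c)}.ncard : ℝ) ≤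
        C * (H : ℝ) ^ ((q : ℝ) * (r + 1) - 1 + ε) := by
  obtain ⟨C, hC⟩ := familyNF K κ q N n m M T r ω hω0 hω G hG A B d hA hB R hR hT c h e hdeg he Γ
    hΓ ε hε hM.symm
  refine ⟨C, fun H hH => ?_⟩
  have h1 : {u : Fin q → Fin (r + 1) → ℤ | (∀ j b, |u j b| ≤ H) ∧
        ¬ NoAtypical (algebraMap (Algebra.adjoin ℤ (Γ : Set ℂ)) ℂ) K m
          (scaledImage (fun j => ∑ b, (ω b : ℂ) * (u j b : ℂ)) G A B R c)} =
      {u : Fin q → Fin (r + 1) → ℤ | ¬ NoAtypical (algebraMap (Algebra.adjoin ℤ (Γ : Set ℂ)) ℂ) K m
        (scaledImage (fun j => ∑ b, (ω b : ℂ) * (u j b : ℂ)) G A B R c)} ∩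
          {u | ∀ j b, |u j b| ≤ H} := by
    ext u
    exact and_comm
  rw [h1]
  exact hC H hH

end Pool.Agent.Results.MP_130685_nt.NumberFieldFamilies
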