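import Pool.Agent.Results.MP_130685_nt.MembersInCubes
import Pool.Agent.X67.LF.Memb

/-!
# MP_130685_nt: Zilber-Pink in `Y(1)^n` for all the members at which generic linear forms are small, of all
# families over a countable field at once

Let `K ⊂ ℂ` be a countable field, `q ≥ 1` and `r` be fixed, `θ, y ∈ ℝ ^ k`, `θ_i ≥ 0`,
`θ_1 + ... + θ_k > q (r + 1) - 1`.

**Theorem.** For almost all systems `Λ_1, ..., Λ_k` of real linear forms in the `q × (r + 1)`-matrices the
following holds for ALL families `X_t` of subsets of `Y(1)^n` (any `n`, any dimension `m`) with `q`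
parameters over `K` which degenerate as in our `NumberFieldFamilies` (see there: along `M ≥ m + 2`
hypersurfaces with independent orders, or along `M ≥ C(min(m + 2, n), 2) + 1` hypersurfaces under a weaker
condition for the orders) and ALL algebraic numbers `ω_0 ≠ 0, ω_1, …, ω_r` in `K` (for example the integral
bases of all number fields of degree `r + 1` in `K`): for ALL but finitely many integral matrices `u ≠ 0`
such that `Λ_i u` is within `|u| ^ (-θ_i)` of `y_i` modulo `1` for all `i`, the member `X_t` with the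
parameters `t_j = ∑_b ω_b u_{j b}` has no atypical intersection with special subvarieties of `Y(1)^n`, in
all dimensions.

By Dirichlet's theorem every system of `k` forms has infinitely many such `u` for `y = 0` and
`θ_i = q (r + 1) / k`, for example the best approximations.

In `NumberFieldFamilies` the exceptional parameters in the box of size `H` are few,
`O(H ^ (q (r + 1) - 1 + ε))`; they could contain all these `u`. Proof: a Borel-Cantelli argument for linear
forms (`Pool.Agent.X67.LF`), and there are only countably many families.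
-/

set_option autoImplicit false

namespace Pool.Agent.Results.MP_130685_nt.SmallLinearForms

open MvPolynomial MeasureTheory Pool.Agent.X295 Pool.Agent.Y152.RP.Fam
open MembersInCubes (Independent Idx countable_idx Hyp Good)
open Pool.Agent.X67.LF (SmallAt memb_forms)

/-- for all families with `q` parameters over `K` which degenerate along sufficiently many hypersurfaces
and all algebraic `ω` in `K`: all but finitely many members with nonzero integral parameter matrices at which the
forms `Λ` are small have no atypical intersection -/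
def AllMembers (K : Subfield ℂ) (q r : ℕ) {k : ℕ} (Λ : Fin k → Fin q × Fin (r + 1) → ℝ)
    (θ y : Fin k → ℝ) : Prop :=
  ∀ (N n m M T a : ℕ) (ω : Fin (r + 1) → K), ω 0 ≠ 0 → (∀ b, IsAlgebraic ℚ (ω b : ℂ)) → ∀
    (G : Fin a → MvPolynomial (Fin (N + 1)) (MvPolynomial (Fin q) K)),
    (∀ k, ∃ e, (G k).IsHomogeneous e) → ∀
    (A B : Fin n → MvPolynomial (Fin (N + 1)) (MvPolynomial (Fin q) K)) (d : Fin n → ℕ),
    (∀ i, (A i).IsHomogeneous (d i)) → (∀ i, (B i).IsHomogeneous (d i)) → ∀
    (R : Fin n → Polynomial (Polynomial K)), (∀ i, (R i).Monic) →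
    (∀ i u w, ((R i).coeff u).coeff w ≠ 0 → u ≤ T ∧ w ≤ T) → ∀
    (c : Fin n → MvPolynomial (Fin q) K) (h : Fin M → MvPolynomial (Fin q) K)
    (e : Fin M → Fin n → ℕ), (∀ l, DegeneratesAlongK m G A B c (h l) (e l)) → Independent T m e → ∀
    (Γ : Finset ℂ), (∀ γ ∈ Γ, γ ∈ K) →
    {u : Fin q → Fin (r + 1) → ℤ | u ≠ 0 ∧ SmallAt Λ θ y u ∧
      ¬ NoAtypical (algebraMap (Algebra.adjoin ℤ (Γ : Set ℂ)) ℂ) K m
          (scaledImage (fun j => ∑ b, (ω b : ℂ) * (u j b : ℂ)) G A B R c)}.Finite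

/-- **Theorem.** See the header. -/
theorem result (K : Subfield ℂ) [Countable K] (q r : ℕ) (hq : 0 < q) (k : ℕ) (θ y : Fin k → ℝ)
    (hθ : ∀ i, 0 ≤ θ i) (hsum : (q : ℝ) * (r + 1) - 1 < ∑ i, θ i) :
    ∀ᵐ Λ : Fin k → Fin q × Fin (r + 1) → ℝ, AllMembers K q r Λ θ y := by
  classical
  have hcount := countable_idx K q r
  have hs : (0 : ℝ) ≤ (q : ℝ) * (r + 1) - 1 := by
    have h1 : (1 : ℝ) ≤ q := by exact_mod_cast hq
    have h2 : (0 : ℝ) ≤ r := Nat.cast_nonneg r
    nlinarith
  have key := memb_forms (ι := Idx K q r)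
    (fun x u => Hyp K q r x → Good K q r x u) hs (by
      rintro ⟨⟨N, n, m, M', T, a⟩, ω, G, A, B, R, c, Γ⟩ ε hε
      by_cases hyp : Hyp K q r ⟨(N, n, m, M', T, a), ω, G, A, B, R, c, Γ⟩
      · obtain ⟨h1, h2, h3, ⟨d, h4, h5⟩, h6, h7, M, h, e, h8, h9⟩ := id hyp
        obtain ⟨C, hC⟩ := NumberFieldFamilies.result K (Fin a) q N n m M T r ω h1 h2 G h3 A B d h4 h5
          R h6 h7 c h e h9.1 h8 Γ.1 Γ.2 h9.2 ε hε
        refine ⟨C, fun H hH => ?_⟩
        have h10 : {u : Fin q → Fin (r + 1) → ℤ | (∀ j b, |u j b| ≤ H) ∧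
            ¬ (Hyp K q r ⟨(N, n, m, M', T, a), ω, G, A, B, R, c, Γ⟩ →
              Good K q r ⟨(N, n, m, M', T, a), ω, G, A, B, R, c, Γ⟩ u)} =
            {u : Fin q → Fin (r + 1) → ℤ | (∀ j b, |u j b| ≤ H) ∧
              ¬ NoAtypical (algebraMap (Algebra.adjoin ℤ (Γ.1 : Set ℂ)) ℂ) K m
                (scaledImage (fun j => ∑ b, (ω b : ℂ) * (u j b : ℂ)) G A B R c)} := by
          ext u
          exact ⟨fun hu => ⟨hu.1, fun hg => hu.2 fun _ => hg⟩, fun hu => ⟨hu.1, fun hg => hu.2 (hg hyp)⟩⟩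
        rw [h10]
        exact hC H hH
      · refine ⟨0, fun H _ => ?_⟩
        have h10 : {u : Fin q → Fin (r + 1) → ℤ | (∀ j b, |u j b| ≤ H) ∧
            ¬ (Hyp K q r ⟨(N, n, m, M', T, a), ω, G, A, B, R, c, Γ⟩ →
              Good K q r ⟨(N, n, m, M', T, a), ω, G, A, B, R, c, Γ⟩ u)} = ∅ :=
          Set.eq_empty_iff_forall_notMem.2 fun u hu => hu.2 fun h => absurd h hyp
        rw [h10, Set.ncard_empty, Nat.cast_zero, zero_mul]) θ y hθ hsum
  filter_upwards [key] with Λ hΛ
  intro N n m M T a ω h1 h2 G h3 A B d h4 h5 R h6 h7 c h e h8 h9 Γ hΓ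
  refine (hΛ ⟨(N, n, m, M, T, a), ω, G, A, B, R, c, ⟨Γ, hΓ⟩⟩).subset ?_
  rintro u ⟨h10, h11, h12⟩
  exact ⟨h10, h11, fun h13 => h12 (h13 ⟨h1, h2, h3, ⟨d, h4, h5⟩, h6, h7, M, h, e, h8, h9⟩)⟩

end Pool.Agent.Results.MP_130685_nt.SmallLinearForms
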